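import Mathlib

/-!
# CT (MP_931ca8_lc): a rayless graph on every `α < ω₂` without independent sets of type
`ω₁ ^ (ω + 2)`, from `ℵ₁` infinite partial slaloms which catch all functions. Definitions.
-/

set_option autoImplicit false

namespace Pool.Agent.CT

open Ordinal

/-- start states of a candidate: level, top of the chain, floor, number of later candidates -/
@[ext]
structure X0 (V : Type) where
  m : ℕ
  s : Option V
  K : Ordinal.{0}
  k : ℕ

/-- states: in addition the number of later tables -/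
@[ext]
structure XS (V : Type) extends X0 V where
  j : ℕ

/-- tables -/
abbrev Tab (V : Type) := XS V → Option V

/-- candidates: a bound and a list of tables for every start state -/
abbrev Cand (V Ω : Type) := Ω × (X0 V → List (Tab V))

/-- the bound for all floors -/
noncomputable def BB : Ordinal.{0} := ω ^ (ω * ω)

/-- the threshold at a state -/
noncomputable def thr {V : Type} (σ : XS V) : Ordinal.{0} :=
  σ.K + ω ^ (ω * (σ.k : Ordinal.{0}) + (σ.j : Ordinal.{0}))

/-- the next state after the answer `y`; `b` = accepted -/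
noncomputable def nx {V : Type} (σ : XS V) (y : Option V) (b : Bool) : XS V :=
  if b = true then ⟨⟨σ.m, y, σ.K, σ.k⟩, σ.j - 1⟩ else ⟨⟨σ.m, σ.s, thr σ, σ.k⟩, σ.j - 1⟩

/-- the first state, `n` = the number of tables -/
def st {V : Type} (σ : X0 V) (n : ℕ) : XS V := ⟨σ, n - 1⟩

/-- the states along a list of tables, with acceptance bits -/
def sim {X A : Type*} (nx : X → A → Bool → X) : List (X → A) → (ℕ → Bool) → X → X
  | [], _, σ => σ
  | T :: l, b, σ => sim nx l (fun i => b (i + 1)) (nx σ (T σ) (b 0))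

/-- the states over `g` -/
def CS {V Ω : Type} [LinearOrder Ω] (t : V → Ω) (g : Ω) : Set (XS V) :=
  {σ | (∀ w ∈ σ.s, t w < g) ∧ σ.K < BB}

/-- the data of the construction: `t` times, `m` levels, `L` stages, `c` enumeration of the
candidates, `e z` enumeration of the elements below `z` -/
structure Sys (V Ω : Type) [LinearOrder Ω] where
  t : V → Ω
  m : V → ℕ
  L : V → Finset Ω
  c : Ω → Cand V Ω
  e : Ω → Ω → ℕ

/-- the candidate `c` is right for the strategy `f` over `g` at all start states of level `≥ k0` -/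
def Right {V Ω : Type} [LinearOrder Ω] (t : V → Ω) (c : Cand V Ω) (g : Ω) (f : Tab V) (k0 : ℕ) :
    Prop :=
  ∀ σ : X0 V, k0 ≤ σ.m → (∀ w ∈ σ.s, t w < g) → σ.K < BB → ∃ l1 T l2, c.2 σ = l1 ++ T :: l2 ∧
    ∀ b, T (sim nx l1 b (st σ (c.2 σ).length)) = f (sim nx l1 b (st σ (c.2 σ).length))

structure Sys.Ok {V Ω : Type} [LinearOrder Ω] (s : Sys V Ω) : Prop where
  Lt : ∀ x, ∀ z ∈ s.L x, z ≤ s.t x
  Lm : ∀ x, (s.L x).card ≤ s.m x
  ei : ∀ z, Set.InjOn (s.e z) (Set.Iio z)
  cnt : ∀ z : Ω, {x | s.t x < z}.Countable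
  guess : ∀ (g : Ω) (f : Tab V), (∀ σ ∈ CS s.t g, ∀ y ∈ f σ, s.t y < g) →
    ∃ ξ, (s.c ξ).1 = g ∧ ∃ k0, Right s.t (s.c ξ) g f k0

/-- the out-neighbourhoods form a forest; the co-ranks `r` decrease upwards -/
structure Forest {V Ω : Type} [LinearOrder Ω] (t : V → Ω) (m : V → ℕ) (out : V → Finset V)
    (r : V → Ordinal.{0}) : Prop where
  lt : ∀ x, ∀ y ∈ out x, t y < t x
  lev : ∀ x, ∀ y ∈ out x, m y = m x
  rk : ∀ x, ∀ y ∈ out x, r x < r y
  trans : ∀ x, ∀ y ∈ out x, out y ⊆ out x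
  chain : ∀ x, ∀ y ∈ out x, ∀ y' ∈ out x, y = y' ∨ y ∈ out y' ∨ y' ∈ out y

section Run

variable {V Ω : Type} [DecidableEq V] [LinearOrder Ω]

/-- the answer `y` is accepted at the state `σ` by `x` -/
def Acc (t : V → Ω) (m : V → ℕ) (a : V → Finset V × Ordinal.{0}) (x : V) (g : Ω) (σ : XS V)
    (y : V) : Prop :=
  t y < t x ∧ t y < g ∧ m y = m x ∧ (∀ w ∈ σ.s, w ∈ (a y).1) ∧ thr σ ≤ (a y).2

open Classical in
/-- the run through the tables of one candidate with the bound `g` -/
noncomputable def inner (t : V → Ω) (m : V → ℕ) (a : V → Finset V × Ordinal.{0}) (x : V) (g : Ω) :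
    List (Tab V) → XS V → XS V
  | [], σ => σ
  | T :: l, σ => inner t m a x g l (nx σ (T σ) (decide (∃ y ∈ T σ, Acc t m a x g σ y)))

/-- one candidate, `k` = the number of later candidates -/
noncomputable def blk (t : V → Ω) (m : V → ℕ) (a : V → Finset V × Ordinal.{0}) (x : V)
    (c : Cand V Ω) (k : ℕ) (p : Option V × Ordinal.{0}) : Option V × Ordinal.{0} :=
  ((inner t m a x c.1 (c.2 ⟨m x, p.1, p.2, k⟩)
      (st ⟨m x, p.1, p.2, k⟩ (c.2 ⟨m x, p.1, p.2, k⟩).length)).s,
    (inner t m a x c.1 (c.2 ⟨m x, p.1, p.2, k⟩)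
      (st ⟨m x, p.1, p.2, k⟩ (c.2 ⟨m x, p.1, p.2, k⟩).length)).K)

/-- the run through a list of candidates, `q` = number of candidates after the list -/
noncomputable def outer (t : V → Ω) (m : V → ℕ) (a : V → Finset V × Ordinal.{0}) (x : V) (q : ℕ) :
    List (Cand V Ω) → Option V × Ordinal.{0} → Option V × Ordinal.{0}
  | [], p => p
  | c :: l, p => outer t m a x q l (blk t m a x c (l.length + q) p)

/-- the chain below the top `s` -/
def ch (a : V → Finset V × Ordinal.{0}) : Option V → Finset V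
  | none => ∅
  | some y => insert y (a y).1

end Run

/-- `Ω` many infinite partial slaloms catch all functions -/
def PSl (Ω : Type) : Prop :=
  ∃ (B : Ω → Set ℕ) (S : Ω → ℕ → Finset ℕ), (∀ ξ, (B ξ).Infinite) ∧
    (∀ ξ n, (S ξ n).card ≤ n) ∧
    ∀ f : ℕ → ℕ, ∃ ξ, ∃ n0, ∀ n ∈ B ξ, n0 ≤ n → f n ∈ S ξ n

end Pool.Agent.CT
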