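import Mathlib
import Pool.Agent.Lib_helper80.CT.Defs

/-! CT: the abstract guessing lemma. -/

set_option autoImplicit false

namespace Pool.Agent.CT

/-- the next element of `B` -/
noncomputable def nb (B : Set ℕ) (n : ℕ) : ℕ := sInf {b | b ∈ B ∧ n ≤ b}

theorem nb_spec {B : Set ℕ} (hB : B.Infinite) (n : ℕ) : nb B n ∈ B ∧ n ≤ nb B n := by
  have hne : {b | b ∈ B ∧ n ≤ b}.Nonempty := by
    obtain ⟨b, hb, hn⟩ := hB.exists_gt n
    exact ⟨b, hb, hn.le⟩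
  exact Nat.sInf_mem hne

/-- the dominating functions -/
noncomputable def Ph {Ω : Type} (B : Ω → Set ℕ) (S : Ω → ℕ → Finset ℕ) (ζ : Ω × ℕ) (n : ℕ) : ℕ :=
  max ((S ζ.1 (nb (B ζ.1) n)).sup id) ζ.2

theorem ph_dom {Ω : Type} {B : Ω → Set ℕ} {S : Ω → ℕ → Finset ℕ} (hB : ∀ ξ, (B ξ).Infinite)
    (hc : ∀ f : ℕ → ℕ, ∃ ξ, ∃ n0, ∀ n ∈ B ξ, n0 ≤ n → f n ∈ S ξ n) (f : ℕ → ℕ) :
    ∃ ζ, ∀ n, f n ≤ Ph B S ζ n := by
  obtain ⟨ξ, n0, h⟩ := hc (fun n => (Finset.range (n + 1)).sup f)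
  refine ⟨(ξ, (Finset.range (n0 + 1)).sup f), fun n => ?_⟩
  by_cases hn : n0 ≤ n
  · obtain ⟨h1, h2⟩ := nb_spec (hB ξ) n
    have h3 := h _ h1 (hn.trans h2)
    refine le_max_of_le_left ?_
    refine le_trans ?_ (Finset.le_sup (f := id) h3)
    exact Finset.le_sup (f := f) (Finset.mem_range.2 (by omega))
  · refine le_max_of_le_right ?_
    exact Finset.le_sup (f := f) (Finset.mem_range.2 (by omega))

section Abs

variable {X : Type*} {A : Type*}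

/-- one step of the reachable set -/
def stp (nx : X → A → Bool → X) (CA : Set A) (cA : A → ℕ) (a0 : A) (Φ : X → ℕ) (S : Set X) :
    Set X :=
  S ∪ {q' | ∃ q ∈ S, ∃ a ∈ CA, (cA a ≤ Φ q ∨ a = a0) ∧ ∃ b, q' = nx q a b}

theorem stp_finite (nx : X → A → Bool → X) (CA : Set A) (cA : A → ℕ) (hcA : Set.InjOn cA CA)
    (a0 : A) (Φ : X → ℕ) (S : Set X) (hS : S.Finite) : (stp nx CA cA a0 Φ S).Finite := by
  refine hS.union ?_
  have h1 : ∀ q, {a | a ∈ CA ∧ (cA a ≤ Φ q ∨ a = a0)}.Finite := by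
    intro q
    have h2 : {a | a ∈ CA ∧ cA a ≤ Φ q}.Finite := by
      refine Set.Finite.of_finite_image (f := cA) ?_ (hcA.mono fun a ha => ha.1)
      refine (Set.finite_Iic (Φ q)).subset ?_
      rintro n ⟨a, ha, rfl⟩
      exact ha.2
    refine (h2.union (Set.finite_singleton a0)).subset ?_
    rintro a ⟨ha, h | h⟩
    · exact Or.inl ⟨ha, h⟩
    · exact Or.inr h
  have h2 : (⋃ q ∈ S, ⋃ a ∈ {a | a ∈ CA ∧ (cA a ≤ Φ q ∨ a = a0)}, ⋃ b : Bool, {nx q a b}).Finite := by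
    refine hS.biUnion fun q _ => ?_
    refine (h1 q).biUnion fun a _ => ?_
    exact Set.finite_iUnion fun b => Set.finite_singleton _
  refine h2.subset ?_
  rintro q' ⟨q, hq, a, ha, hh, b, rfl⟩
  refine Set.mem_biUnion hq ?_
  refine Set.mem_biUnion (x := a) ⟨ha, hh⟩ ?_
  exact Set.mem_iUnion.2 ⟨b, rfl⟩

/-- `n` steps -/
def Rch (nx : X → A → Bool → X) (CA : Set A) (cA : A → ℕ) (a0 : A) (Φ : X → ℕ) : ℕ → Set X → Set X
  | 0, S => S
  | n + 1, S => Rch nx CA cA a0 Φ n (stp nx CA cA a0 Φ S)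

theorem rch_finite (nx : X → A → Bool → X) (CA : Set A) (cA : A → ℕ) (hcA : Set.InjOn cA CA)
    (a0 : A) (Φ : X → ℕ) (n : ℕ) (S : Set X) (hS : S.Finite) :
    (Rch nx CA cA a0 Φ n S).Finite := by
  induction n generalizing S with
  | zero => exact hS
  | succ n ih => exact ih _ (stp_finite nx CA cA hcA a0 Φ S hS)

theorem rch_self (nx : X → A → Bool → X) (CA : Set A) (cA : A → ℕ)
    (a0 : A) (Φ : X → ℕ) (n : ℕ) (S : Set X) : S ⊆ Rch nx CA cA a0 Φ n S := by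
  induction n generalizing S with
  | zero => exact Set.Subset.refl _
  | succ n ih => exact Set.subset_union_left.trans (ih _)

theorem rch_sub (nx : X → A → Bool → X) (CA : Set A) (cA : A → ℕ) (a0 : A) (Φ : X → ℕ)
    (C : Set X) (hnx : ∀ q ∈ C, ∀ a ∈ CA, ∀ b, nx q a b ∈ C) (n : ℕ) (S : Set X) (hS : S ⊆ C) :
    Rch nx CA cA a0 Φ n S ⊆ C := by
  induction n generalizing S with
  | zero => exact hS
  | succ n ih =>
    refine ih _ ?_
    rintro q (hq | ⟨q', hq', a, ha, -, b, rfl⟩)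
    · exact hS hq
    · exact hnx _ (hS hq') a ha b

theorem sim_mem (nx : X → A → Bool → X) (CA : Set A) (cA : A → ℕ) (a0 : A) (Φ : X → ℕ)
    (l : List (X → A)) (hl : ∀ T ∈ l, ∀ q, T q ∈ CA ∧ (cA (T q) ≤ Φ q ∨ T q = a0))
    (n : ℕ) (hn : l.length ≤ n) (b : ℕ → Bool) (q : X) (S : Set X) (hq : q ∈ S) :
    sim nx l b q ∈ Rch nx CA cA a0 Φ n S := by
  induction l generalizing n b q S with
  | nil => exact rch_self _ _ _ _ _ _ _ hq
  | cons T l ih =>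
    cases n with
    | zero => simp at hn
    | succ n =>
      refine ih (fun T' hT' => hl T' (List.mem_cons_of_mem _ hT')) n ?_ _ _ _ ?_
      · simpa using hn
      · obtain ⟨h1, h2⟩ := hl T List.mem_cons_self q
        exact Or.inr ⟨q, hq, T q, h1, h2, b 0, rfl⟩

open Classical in
/-- the table of a finite set of pairs of codes -/
noncomputable def tb (CA : Set A) (cX : X → ℕ) (cA : A → ℕ) (a0 : A) (Φ : X → ℕ)
    (P : Finset (ℕ × ℕ)) (q : X) : A :=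
  if h : ∃ a, a ∈ CA ∧ (cX q, cA a) ∈ P ∧ cA a ≤ Φ q then h.choose else a0

theorem tb_spec (CA : Set A) (cX : X → ℕ) (cA : A → ℕ) (a0 : A) (ha0 : a0 ∈ CA) (Φ : X → ℕ)
    (P : Finset (ℕ × ℕ)) (q : X) :
    tb CA cX cA a0 Φ P q ∈ CA ∧ (cA (tb CA cX cA a0 Φ P q) ≤ Φ q ∨ tb CA cX cA a0 Φ P q = a0) := by
  unfold tb
  split_ifs with h
  · exact ⟨h.choose_spec.1, Or.inl h.choose_spec.2.2⟩
  · exact ⟨ha0, Or.inr rfl⟩

theorem tb_eq (CA : Set A) (cX : X → ℕ) (cA : A → ℕ) (hcA : Set.InjOn cA CA) (a0 : A)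
    (Φ : X → ℕ) (C : Set X) (hcX : Set.InjOn cX C) (f : X → A) (hf : ∀ q ∈ C, f q ∈ CA)
    (R : Finset X) (hR : ∀ q ∈ R, q ∈ C) (P : Finset (ℕ × ℕ))
    (hP : ∀ p, p ∈ P ↔ ∃ q ∈ R, (cX q, cA (f q)) = p) (q : X) (hq : q ∈ R)
    (hΦ : cA (f q) ≤ Φ q) : tb CA cX cA a0 Φ P q = f q := by
  have h : ∃ a, a ∈ CA ∧ (cX q, cA a) ∈ P ∧ cA a ≤ Φ q :=
    ⟨f q, hf q (hR q hq), (hP _).2 ⟨q, hq, rfl⟩, hΦ⟩
  unfold tb
  rw [dif_pos h]
  obtain ⟨h1, h2, -⟩ := h.choose_spec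
  obtain ⟨q', hq', he⟩ := (hP _).1 h2
  have he1 : cX q' = cX q := congrArg Prod.fst he
  have he2 : cA (f q') = cA h.choose := congrArg Prod.snd he
  have hqq : q' = q := hcX (hR q' hq') (hR q hq) he1
  rw [hqq] at he2
  exact (hcA (hf q (hR q hq)) h1 he2).symm

end Abs

/-- the abstract guessing lemma -/
theorem guess_abs {Ω : Type} {Y X A : Type*} (h : PSl Ω) (C0 : Set Y) (hC0 : C0.Countable)
    (C : Set X) (hC : C.Countable) (CA : Set A) (hCA : CA.Countable) (a0 : A) (ha0 : a0 ∈ CA)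
    (st : Y → ℕ → X) (hst : ∀ σ ∈ C0, ∀ n, st σ n ∈ C) (nx : X → A → Bool → X)
    (hnx : ∀ q ∈ C, ∀ a ∈ CA, ∀ b, nx q a b ∈ C) :
    ∃ L : Ω × (Ω × ℕ) → Y → List (X → A), ∀ f : X → A, (∀ q ∈ C, f q ∈ CA) →
      ∃ ξ, ∃ E : Set Y, E.Finite ∧ ∀ σ ∈ C0, σ ∉ E → ∃ l1 T l2, L ξ σ = l1 ++ T :: l2 ∧
        ∀ b, T (sim nx l1 b (st σ (L ξ σ).length)) = f (sim nx l1 b (st σ (L ξ σ).length)) := by
  classical
  obtain ⟨B, S, hB, hS, hcatch⟩ := h
  obtain ⟨c0, hc0⟩ := Set.countable_iff_exists_injOn.mp hC0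
  obtain ⟨cX, hcX⟩ := Set.countable_iff_exists_injOn.mp hC
  obtain ⟨cA, hcA⟩ := Set.countable_iff_exists_injOn.mp hCA
  -- decoding
  let dec : ℕ → Finset (ℕ × ℕ) := fun u => ((Encodable.decode u : Option (Finset (ℕ × ℕ)))).getD ∅
  have hdec : ∀ P : Finset (ℕ × ℕ), dec (Encodable.encode P) = P := by
    intro P
    show ((Encodable.decode (Encodable.encode P) : Option (Finset (ℕ × ℕ)))).getD ∅ = P
    rw [Encodable.encodek]
    rfl
  refine ⟨fun p σ => (S p.1 (nb (B p.1) (c0 σ))).toList.map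
    (fun u => tb CA cX cA a0 (fun q => Ph B S p.2 (cX q)) (dec u)), ?_⟩
  intro f hf
  -- the dominating function
  obtain ⟨ζ, hζ⟩ : ∃ ζ, ∀ q ∈ C, cA (f q) ≤ Ph B S ζ (cX q) := by
    obtain ⟨ζ, hζ⟩ := ph_dom hB hcatch
      (fun n => if h : ∃ q ∈ C, cX q = n then cA (f h.choose) else 0)
    refine ⟨ζ, fun q hq => ?_⟩
    have h1 := hζ (cX q)
    have h2 : ∃ q' ∈ C, cX q' = cX q := ⟨q, hq, rfl⟩
    rw [dif_pos h2] at h1
    have h3 : h2.choose = q := hcX h2.choose_spec.1 hq h2.choose_spec.2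
    rw [h3] at h1
    exact h1
  set Φ : X → ℕ := fun q => Ph B S ζ (cX q) with hΦ
  -- the reachable sets
  let base : ℕ → Set X := fun i => {q | ∃ σ ∈ C0, c0 σ ≤ i ∧ ∃ n ≤ i, q = st σ n}
  have hbase : ∀ i, (base i).Finite := by
    intro i
    have h1 : {σ | σ ∈ C0 ∧ c0 σ ≤ i}.Finite := by
      refine Set.Finite.of_finite_image (f := c0) ?_ (hc0.mono fun a ha => ha.1)
      refine (Set.finite_Iic i).subset ?_
      rintro n ⟨a, ha, rfl⟩
      exact ha.2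
    have h2 : (⋃ σ ∈ {σ | σ ∈ C0 ∧ c0 σ ≤ i}, ⋃ n ∈ Set.Iic i, {st σ n}).Finite :=
      h1.biUnion fun σ _ => (Set.finite_Iic i).biUnion fun n _ => Set.finite_singleton _
    refine h2.subset ?_
    rintro q ⟨σ, hσ, hσi, n, hn, rfl⟩
    refine Set.mem_biUnion (x := σ) ⟨hσ, hσi⟩ ?_
    exact Set.mem_biUnion (x := n) hn rfl
  have hbC : ∀ i, base i ⊆ C := by
    rintro i q ⟨σ, hσ, -, n, -, rfl⟩
    exact hst σ hσ n
  have hRf : ∀ i, (Rch nx CA cA a0 Φ i (base i)).Finite := fun i =>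
    rch_finite nx CA cA hcA a0 Φ i _ (hbase i)
  let F : ℕ → ℕ := fun i => Encodable.encode
    ((hRf i).toFinset.image (fun q => (cX q, cA (f q))))
  obtain ⟨ξ, n0, hξ⟩ := hcatch F
  refine ⟨(ξ, ζ), {σ | σ ∈ C0 ∧ c0 σ < n0}, ?_, ?_⟩
  · refine Set.Finite.of_finite_image (f := c0) ?_ (hc0.mono fun a ha => ha.1)
    refine (Set.finite_Iio n0).subset ?_
    rintro n ⟨a, ha, rfl⟩
    exact ha.2
  · intro σ hσ hσE
    have hσ0 : n0 ≤ c0 σ := by
      by_contra hcon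
      exact hσE ⟨hσ, not_le.1 hcon⟩
    obtain ⟨i, hi⟩ : ∃ i, i = nb (B ξ) (c0 σ) := ⟨_, rfl⟩
    obtain ⟨h1, h2⟩ := nb_spec (hB ξ) (c0 σ)
    rw [← hi] at h1 h2
    have hF : F i ∈ S ξ i := hξ i h1 (hσ0.trans h2)
    obtain ⟨u1, u2, hu⟩ := List.append_of_mem (Finset.mem_toList.2 hF)
    obtain ⟨Tu, hTu⟩ : ∃ Tu : ℕ → X → A, Tu = fun u => tb CA cX cA a0 Φ (dec u) := ⟨_, rfl⟩
    have hL : ((S ξ (nb (B ξ) (c0 σ))).toList.map Tu) =
        u1.map Tu ++ Tu (F i) :: u2.map Tu := by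
      rw [← hi, hu, List.map_append, List.map_cons]
    have hlen : ((S ξ (nb (B ξ) (c0 σ))).toList.map Tu).length ≤ i := by
      rw [List.length_map, Finset.length_toList, ← hi]
      exact hS ξ i
    have hlen1 : (u1.map Tu).length ≤ i := by
      refine le_trans ?_ hlen
      rw [hL, List.length_append]
      exact Nat.le_add_right _ _
    refine ⟨u1.map Tu, Tu (F i), u2.map Tu, ?_, ?_⟩
    · show ((S ξ (nb (B ξ) (c0 σ))).toList.map
        (fun u => tb CA cX cA a0 (fun q => Ph B S ζ (cX q)) (dec u))) = _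
      rw [← hL, hTu]
    · intro b
      have hgen : ∀ q, q = sim nx (u1.map Tu) b (st σ ((S ξ (nb (B ξ) (c0 σ))).toList.map Tu).length) →
          Tu (F i) q = f q := by
        intro q hq
        have hq1 : q ∈ Rch nx CA cA a0 Φ i (base i) := by
          rw [hq]
          refine sim_mem nx CA cA a0 Φ _ ?_ i hlen1 b _ _ ⟨σ, hσ, h2, _, hlen, rfl⟩
          intro T hT q'
          obtain ⟨u, -, rfl⟩ := List.mem_map.1 hT
          rw [hTu]
          exact tb_spec CA cX cA a0 ha0 Φ _ q'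
        have hqC : q ∈ C := rch_sub nx CA cA a0 Φ C hnx i _ (hbC i) hq1
        rw [hTu]
        refine tb_eq CA cX cA hcA a0 Φ C hcX f hf (hRf i).toFinset ?_ _ ?_ q ?_ (hζ q hqC)
        · intro q' hq'
          exact rch_sub nx CA cA a0 Φ C hnx i _ (hbC i) ((Set.Finite.mem_toFinset _).1 hq')
        · intro p
          show p ∈ dec (Encodable.encode _) ↔ _
          rw [hdec, Finset.mem_image]
        · exact (Set.Finite.mem_toFinset _).2 hq1
      have := hgen _ rfl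
      subst hTu
      exact this

end Pool.Agent.CT
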