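import Mathlib
import Pool.Agent.Lib_helper80.CT.Defs

/-! CT: the run. -/

set_option autoImplicit false
set_option linter.unusedSectionVars false

namespace Pool.Agent.CT

open Ordinal

section Run

variable {V Ω : Type} [DecidableEq V] [LinearOrder Ω]

theorem nx_true (σ : XS V) (y : Option V) : nx σ y true = ⟨⟨σ.m, y, σ.K, σ.k⟩, σ.j - 1⟩ := by
  simp [nx]

theorem nx_false (σ : XS V) (y : Option V) :
    nx σ y false = ⟨⟨σ.m, σ.s, thr σ, σ.k⟩, σ.j - 1⟩ := by
  simp [nx]

theorem inner_acc {t : V → Ω} {m : V → ℕ} {a : V → Finset V × Ordinal.{0}} {x : V} {g : Ω}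
    {T : Tab V} {l : List (Tab V)} {σ : XS V} {y : V} (hy : T σ = some y)
    (h : Acc t m a x g σ y) :
    inner t m a x g (T :: l) σ = inner t m a x g l ⟨⟨σ.m, some y, σ.K, σ.k⟩, σ.j - 1⟩ := by
  classical
  have h1 : ∃ y ∈ T σ, Acc t m a x g σ y := ⟨y, hy, h⟩
  rw [inner, decide_eq_true h1, nx_true, hy]

theorem inner_rej {t : V → Ω} {m : V → ℕ} {a : V → Finset V × Ordinal.{0}} {x : V} {g : Ω}
    {T : Tab V} {l : List (Tab V)} {σ : XS V} (h : ¬ ∃ y ∈ T σ, Acc t m a x g σ y) :
    inner t m a x g (T :: l) σ = inner t m a x g l ⟨⟨σ.m, σ.s, thr σ, σ.k⟩, σ.j - 1⟩ := by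
  classical
  rw [inner, decide_eq_false h, nx_false]

theorem acc_congr (t : V → Ω) (m : V → ℕ) (a b : V → Finset V × Ordinal.{0}) (x : V) (g : Ω)
    (h : ∀ y, t y < t x → a y = b y) (σ : XS V) (y : V) :
    Acc t m a x g σ y ↔ Acc t m b x g σ y := by
  unfold Acc
  constructor
  · rintro ⟨h1, h2⟩
    rw [h y h1] at h2
    exact ⟨h1, h2⟩
  · rintro ⟨h1, h2⟩
    rw [← h y h1] at h2
    exact ⟨h1, h2⟩

theorem inner_congr (t : V → Ω) (m : V → ℕ) (a b : V → Finset V × Ordinal.{0}) (x : V) (g : Ω)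
    (h : ∀ y, t y < t x → a y = b y) (l : List (Tab V)) (σ : XS V) :
    inner t m a x g l σ = inner t m b x g l σ := by
  induction l generalizing σ with
  | nil => rfl
  | cons T l ih =>
    by_cases h1 : ∃ y ∈ T σ, Acc t m a x g σ y
    · obtain ⟨y, hy, hA⟩ := h1
      rw [inner_acc hy hA, inner_acc hy ((acc_congr t m a b x g h σ y).1 hA), ih]
    · have h2 : ¬ ∃ y ∈ T σ, Acc t m b x g σ y := by
        rintro ⟨y, hy, hA⟩
        exact h1 ⟨y, hy, (acc_congr t m a b x g h σ y).2 hA⟩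
      rw [inner_rej h1, inner_rej h2, ih]

theorem blk_congr (t : V → Ω) (m : V → ℕ) (a b : V → Finset V × Ordinal.{0}) (x : V)
    (h : ∀ y, t y < t x → a y = b y) (c : Cand V Ω) (k : ℕ) (p : Option V × Ordinal.{0}) :
    blk t m a x c k p = blk t m b x c k p := by
  unfold blk
  rw [inner_congr t m a b x c.1 h]

theorem outer_congr (t : V → Ω) (m : V → ℕ) (a b : V → Finset V × Ordinal.{0}) (x : V)
    (h : ∀ y, t y < t x → a y = b y) (q : ℕ) (l : List (Cand V Ω)) (p : Option V × Ordinal.{0}) :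
    outer t m a x q l p = outer t m b x q l p := by
  induction l generalizing p with
  | nil => rfl
  | cons c l ih => rw [outer, outer, blk_congr t m a b x h, ih]

theorem inner_append (t : V → Ω) (m : V → ℕ) (a : V → Finset V × Ordinal.{0}) (x : V) (g : Ω)
    (l l' : List (Tab V)) (σ : XS V) :
    inner t m a x g (l ++ l') σ = inner t m a x g l' (inner t m a x g l σ) := by
  induction l generalizing σ with
  | nil => rfl
  | cons T l ih => rw [List.cons_append, inner, inner, ih]

theorem outer_append (t : V → Ω) (m : V → ℕ) (a : V → Finset V × Ordinal.{0}) (x : V) (q : ℕ)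
    (l l' : List (Cand V Ω)) (p : Option V × Ordinal.{0}) :
    outer t m a x q (l ++ l') p = outer t m a x q l' (outer t m a x (l'.length + q) l p) := by
  induction l generalizing p with
  | nil => rfl
  | cons c l ih =>
    rw [List.cons_append, outer, outer, ih, List.length_append, add_assoc]

/-- the actual run is a simulation -/
theorem inner_sim (t : V → Ω) (m : V → ℕ) (a : V → Finset V × Ordinal.{0}) (x : V) (g : Ω)
    (l : List (Tab V)) (σ : XS V) : ∃ b, inner t m a x g l σ = sim nx l b σ := by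
  classical
  induction l generalizing σ with
  | nil => exact ⟨fun _ => true, rfl⟩
  | cons T l ih =>
    obtain ⟨b, hb⟩ := ih (nx σ (T σ) (decide (∃ y ∈ T σ, Acc t m a x g σ y)))
    refine ⟨fun i => Nat.casesOn i (decide (∃ y ∈ T σ, Acc t m a x g σ y)) b, ?_⟩
    rw [inner, hb]
    rfl

theorem inner_mk (t : V → Ω) (m : V → ℕ) (a : V → Finset V × Ordinal.{0}) (x : V) (g : Ω)
    (l : List (Tab V)) (σ : XS V) :
    (inner t m a x g l σ).m = σ.m ∧ (inner t m a x g l σ).k = σ.k := by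
  induction l generalizing σ with
  | nil => exact ⟨rfl, rfl⟩
  | cons T l ih =>
    by_cases h1 : ∃ y ∈ T σ, Acc t m a x g σ y
    · obtain ⟨y, hy, hA⟩ := h1
      rw [inner_acc hy hA]
      exact ih _
    · rw [inner_rej h1]
      exact ih _

theorem ch_sub {t : V → Ω} {m : V → ℕ} {a : V → Finset V × Ordinal.{0}} {x : V} {g : Ω}
    (ha : ∀ y, t y < t x → ∀ w ∈ (a y).1, (a w).1 ⊆ (a y).1) {σ : XS V} {y : V}
    (h : Acc t m a x g σ y) : ch a σ.s ⊆ ch a (some y) := by
  obtain ⟨h1, -, -, h4, -⟩ := h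
  cases hs : σ.s with
  | none => exact Finset.empty_subset _
  | some w =>
    have hw : w ∈ (a y).1 := h4 w (by rw [hs]; rfl)
    show insert w (a w).1 ⊆ insert y (a y).1
    intro v hv
    rcases Finset.mem_insert.1 hv with rfl | hv
    · exact Finset.mem_insert_of_mem hw
    · exact Finset.mem_insert_of_mem (ha y h1 w hw hv)

theorem le_thr (σ : XS V) : σ.K ≤ thr σ := le_self_add

/-- the chain and the floor grow -/
theorem inner_grow (t : V → Ω) (m : V → ℕ) (a : V → Finset V × Ordinal.{0}) (x : V) (g : Ω)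
    (ha : ∀ y, t y < t x → ∀ w ∈ (a y).1, (a w).1 ⊆ (a y).1) (l : List (Tab V)) (σ : XS V) :
    ch a σ.s ⊆ ch a (inner t m a x g l σ).s ∧ σ.K ≤ (inner t m a x g l σ).K := by
  induction l generalizing σ with
  | nil => exact ⟨Finset.Subset.refl _, le_rfl⟩
  | cons T l ih =>
    by_cases h1 : ∃ y ∈ T σ, Acc t m a x g σ y
    · obtain ⟨y, hy, hA⟩ := h1
      rw [inner_acc hy hA]
      obtain ⟨i1, i2⟩ := ih ⟨⟨σ.m, some y, σ.K, σ.k⟩, σ.j - 1⟩
      exact ⟨(ch_sub ha hA).trans i1, i2⟩
    · rw [inner_rej h1]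
      obtain ⟨i1, i2⟩ := ih ⟨⟨σ.m, σ.s, thr σ, σ.k⟩, σ.j - 1⟩
      exact ⟨i1, (le_thr σ).trans i2⟩

theorem outer_grow (t : V → Ω) (m : V → ℕ) (a : V → Finset V × Ordinal.{0}) (x : V) (q : ℕ)
    (ha : ∀ y, t y < t x → ∀ w ∈ (a y).1, (a w).1 ⊆ (a y).1) (l : List (Cand V Ω))
    (p : Option V × Ordinal.{0}) :
    ch a p.1 ⊆ ch a (outer t m a x q l p).1 ∧ p.2 ≤ (outer t m a x q l p).2 := by
  induction l generalizing p with
  | nil => exact ⟨Finset.Subset.refl _, le_rfl⟩
  | cons c l ih =>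
    rw [outer]
    obtain ⟨i1, i2⟩ := ih (blk t m a x c (l.length + q) p)
    obtain ⟨i3, i4⟩ := inner_grow t m a x c.1 ha (c.2 ⟨m x, p.1, p.2, l.length + q⟩)
      (st ⟨m x, p.1, p.2, l.length + q⟩ (c.2 ⟨m x, p.1, p.2, l.length + q⟩).length)
    exact ⟨i3.trans i1, i4.trans i2⟩

/-- the bound of the times -/
theorem inner_bound (t : V → Ω) (m : V → ℕ) (a : V → Finset V × Ordinal.{0}) (x : V) (g g' : Ω)
    (hg : g ≤ g') (l : List (Tab V)) (σ : XS V) (h : ∀ w ∈ σ.s, t w < g') :
    ∀ w ∈ (inner t m a x g l σ).s, t w < g' := by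
  induction l generalizing σ with
  | nil => exact h
  | cons T l ih =>
    by_cases h1 : ∃ y ∈ T σ, Acc t m a x g σ y
    · obtain ⟨y, hy, hA⟩ := h1
      rw [inner_acc hy hA]
      refine ih _ ?_
      intro w hw
      have : w = y := by
        have h2 : some y = some w := hw
        exact (Option.some.inj h2).symm
      rw [this]
      exact hA.2.1.trans_le hg
    · rw [inner_rej h1]
      exact ih _ h

theorem outer_bound (t : V → Ω) (m : V → ℕ) (a : V → Finset V × Ordinal.{0}) (x : V) (q : ℕ)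
    (g : Ω) (l : List (Cand V Ω)) (hl : ∀ d ∈ l, d.1 ≤ g) (p : Option V × Ordinal.{0})
    (h : ∀ w ∈ p.1, t w < g) : ∀ w ∈ (outer t m a x q l p).1, t w < g := by
  induction l generalizing p with
  | nil => exact h
  | cons c l ih =>
    rw [outer]
    refine ih (fun d hd => hl d (List.mem_cons_of_mem _ hd)) _ ?_
    exact inner_bound t m a x c.1 g (hl c List.mem_cons_self) _ _ h

theorem BB_pos : (0 : Ordinal.{0}) < BB := Ordinal.opow_pos _ omega0_pos

theorem exp_lt (k j : ℕ) : ω * (k : Ordinal.{0}) + (j : Ordinal.{0}) < ω * ω := by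
  have h1 : (k : Ordinal.{0}) + 1 < ω := by
    have := Ordinal.natCast_lt_omega0 (k + 1)
    rwa [Nat.cast_add, Nat.cast_one] at this
  calc ω * (k : Ordinal.{0}) + (j : Ordinal.{0}) < ω * (k : Ordinal.{0}) + ω :=
        (add_lt_add_iff_left _).2 (Ordinal.natCast_lt_omega0 j)
    _ = ω * ((k : Ordinal.{0}) + 1) := by rw [mul_add, mul_one]
    _ < ω * ω := mul_lt_mul_of_pos_left h1 omega0_pos

theorem thr_lt (σ : XS V) (h : σ.K < BB) : thr σ < BB := by
  unfold thr BB
  refine Ordinal.isPrincipal_add_omega0_opow _ h ?_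
  exact (Ordinal.opow_lt_opow_iff_right one_lt_omega0).2 (exp_lt σ.k σ.j)

theorem inner_K (t : V → Ω) (m : V → ℕ) (a : V → Finset V × Ordinal.{0}) (x : V) (g : Ω)
    (l : List (Tab V)) (σ : XS V) (h : σ.K < BB) : (inner t m a x g l σ).K < BB := by
  induction l generalizing σ with
  | nil => exact h
  | cons T l ih =>
    by_cases h1 : ∃ y ∈ T σ, Acc t m a x g σ y
    · obtain ⟨y, hy, hA⟩ := h1
      rw [inner_acc hy hA]
      exact ih _ h
    · rw [inner_rej h1]
      exact ih _ (thr_lt σ h)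

theorem outer_K (t : V → Ω) (m : V → ℕ) (a : V → Finset V × Ordinal.{0}) (x : V) (q : ℕ)
    (l : List (Cand V Ω)) (p : Option V × Ordinal.{0}) (h : p.2 < BB) :
    (outer t m a x q l p).2 < BB := by
  induction l generalizing p with
  | nil => exact h
  | cons c l ih =>
    rw [outer]
    exact ih _ (inner_K t m a x c.1 _ _ h)

/-- good tops: there is room above the floor -/
def Inv (t : V → Ω) (m : V → ℕ) (a : V → Finset V × Ordinal.{0}) (x : V) (e : Ordinal.{0})
    (s : Option V) (K : Ordinal.{0}) : Prop :=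
  ∀ w ∈ s, t w < t x ∧ m w = m x ∧ K + ω ^ e ≤ (a w).2

theorem pow_add_pow (e : Ordinal.{0}) : ω ^ e + ω ^ e ≤ ω ^ (e + 1) := by
  rw [Ordinal.opow_add, Ordinal.opow_one, ← Ordinal.mul_two]
  exact mul_le_mul_right (by exact_mod_cast (Ordinal.natCast_lt_omega0 2).le) _

theorem inner_inv (t : V → Ω) (m : V → ℕ) (a : V → Finset V × Ordinal.{0}) (x : V) (g : Ω)
    (l : List (Tab V)) (σ : XS V) (hj : σ.j = l.length - 1)
    (h : Inv t m a x (ω * (σ.k : Ordinal.{0}) + (l.length : Ordinal.{0})) σ.s σ.K) :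
    Inv t m a x (ω * (σ.k : Ordinal.{0})) (inner t m a x g l σ).s (inner t m a x g l σ).K := by
  induction l generalizing σ with
  | nil => simpa [inner] using h
  | cons T l ih =>
    have hj' : σ.j = l.length := by
      rw [hj, List.length_cons]
      rfl
    have hthr : thr σ = σ.K + ω ^ (ω * (σ.k : Ordinal.{0}) + (l.length : Ordinal.{0})) := by
      rw [thr, hj']
    by_cases h1 : ∃ y ∈ T σ, Acc t m a x g σ y
    · obtain ⟨y, hy, hA⟩ := h1
      rw [inner_acc hy hA]
      refine ih ⟨⟨σ.m, some y, σ.K, σ.k⟩, σ.j - 1⟩ ?_ ?_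
      · show σ.j - 1 = l.length - 1
        rw [hj']
      · intro w hw
        have hwy : w = y := by
          have h2 : some y = some w := hw
          exact (Option.some.inj h2).symm
        rw [hwy]
        refine ⟨hA.1, hA.2.2.1, ?_⟩
        have := hA.2.2.2.2
        rw [hthr] at this
        exact this
    · rw [inner_rej h1]
      refine ih ⟨⟨σ.m, σ.s, thr σ, σ.k⟩, σ.j - 1⟩ ?_ ?_
      · show σ.j - 1 = l.length - 1
        rw [hj']
      · intro w hw
        obtain ⟨i1, i2, i3⟩ := h w hw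
        refine ⟨i1, i2, ?_⟩
        show thr σ + _ ≤ _
        rw [hthr, add_assoc]
        refine le_trans ?_ i3
        refine (add_le_add_iff_left _).2 ?_
        refine (pow_add_pow _).trans (le_of_eq ?_)
        rw [List.length_cons, Nat.cast_add, Nat.cast_one, add_assoc]

theorem Inv.mono {t : V → Ω} {m : V → ℕ} {a : V → Finset V × Ordinal.{0}} {x : V}
    {e e' : Ordinal.{0}} {s : Option V} {K : Ordinal.{0}} (h : Inv t m a x e s K) (he : e' ≤ e) :
    Inv t m a x e' s K := by
  intro w hw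
  obtain ⟨h1, h2, h3⟩ := h w hw
  refine ⟨h1, h2, le_trans ?_ h3⟩
  exact (add_le_add_iff_left _).2 (Ordinal.opow_le_opow_right omega0_pos he)

theorem outer_inv (t : V → Ω) (m : V → ℕ) (a : V → Finset V × Ordinal.{0}) (x : V) (q : ℕ)
    (l : List (Cand V Ω)) (p : Option V × Ordinal.{0})
    (h : Inv t m a x (ω * ((l.length + q : ℕ) : Ordinal.{0})) p.1 p.2) :
    Inv t m a x (ω * (q : Ordinal.{0})) (outer t m a x q l p).1 (outer t m a x q l p).2 := by
  induction l generalizing p with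
  | nil => simpa [outer] using h
  | cons c l ih =>
    rw [outer]
    refine ih _ ?_
    refine inner_inv t m a x c.1 (c.2 ⟨m x, p.1, p.2, l.length + q⟩)
      (st ⟨m x, p.1, p.2, l.length + q⟩ (c.2 ⟨m x, p.1, p.2, l.length + q⟩).length) rfl ?_
    refine Inv.mono h ?_
    show ω * ((l.length + q : ℕ) : Ordinal.{0}) + _ ≤ _
    have h1 : (((c :: l).length + q : ℕ) : Ordinal.{0}) = ((l.length + q : ℕ) : Ordinal.{0}) + 1 := by
      have h2 : (c :: l).length + q = (l.length + q) + 1 := by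
        rw [List.length_cons]
        omega
      rw [h2]
      push_cast
      rfl
    rw [h1, mul_add, mul_one]
    exact (add_le_add_iff_left _).2 (Ordinal.natCast_lt_omega0 _).le

end Run

end Pool.Agent.CT
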