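import Mathlib
import Pool.Agent.Lib_helper80.CT.Run

/-! CT: the forest. -/

set_option autoImplicit false
set_option linter.unusedSectionVars false

namespace Pool.Agent.CT

open Ordinal

theorem rec_exists {V Ω : Type} {X : Type*} [LinearOrder Ω] [WellFoundedLT Ω] [Inhabited X]
    (t : V → Ω) (F : V → (V → X) → X)
    (hF : ∀ x a b, (∀ y, t y < t x → a y = b y) → F x a = F x b) :
    ∃ a : V → X, ∀ x, a x = F x a := by
  classical
  have wf : WellFounded (fun y x : V => t y < t x) := InvImage.wf t wellFounded_lt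
  refine ⟨wf.fix (fun x rec => F x (fun y => if h : t y < t x then rec y h else default)),
    fun x => ?_⟩
  rw [wf.fix_eq]
  apply hF
  intro y hy
  simp [hy]

/-- the comparability graph of a forest with co-ranks has no infinite path -/
theorem no_path {V Ω : Type} [LinearOrder Ω] [WellFoundedLT Ω] {t : V → Ω} {m : V → ℕ}
    {out : V → Finset V} {r : V → Ordinal.{0}} (h : Forest t m out r) :
    ¬ ∃ f : ℕ → V, Function.Injective f ∧ ∀ n, f (n + 1) ∈ out (f n) ∨ f n ∈ out (f (n + 1)) := by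
  have hmin : ∀ f : ℕ → V, ∃ i, ∀ j, t (f i) ≤ t (f j) := by
    intro f
    have hne : (Set.range (fun n => t (f n))).Nonempty := ⟨_, 0, rfl⟩
    obtain ⟨i, hi⟩ := WellFounded.min_mem (wellFounded_lt (α := Ω)) _ hne
    refine ⟨i, fun j => ?_⟩
    have hi' : t (f i) = WellFounded.min (wellFounded_lt (α := Ω)) _ hne := hi
    rw [hi']
    have hj : t (f j) ∈ Set.range (fun n => t (f n)) := ⟨j, rfl⟩
    exact not_lt.1 (WellFounded.not_lt_min (wellFounded_lt (α := Ω)) _ hj)
  have key : ∀ ρ : Ordinal.{0}, ∀ f : ℕ → V, Function.Injective f →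
      (∀ n, f (n + 1) ∈ out (f n) ∨ f n ∈ out (f (n + 1))) → ∀ i, (∀ j, t (f i) ≤ t (f j)) →
      r (f i) = ρ → False := by
    intro ρ
    induction ρ using WellFoundedLT.induction with
    | ind ρ ih =>
      intro f h1 h2 i hi hρ
      have key : ∀ n, f i ∈ out (f (i + 1 + n)) := by
        intro n
        induction n with
        | zero =>
          rcases h2 i with h4 | h4
          · exact absurd (h.lt _ _ h4) (not_lt.2 (hi (i + 1)))
          · exact h4
        | succ n ihn =>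
          have e : i + 1 + (n + 1) = (i + 1 + n) + 1 := by ring
          rw [e]
          rcases h2 (i + 1 + n) with h4 | h4
          · rcases h.chain _ _ ihn _ h4 with h5 | h5 | h5
            · have := h1 h5
              omega
            · exact h5
            · exact absurd (h.lt _ _ h5) (not_lt.2 (hi (i + 1 + n + 1)))
          · exact h.trans _ _ h4 ihn
      obtain ⟨i', hi'⟩ := hmin (fun n => f (i + 1 + n))
      refine ih (r (f (i + 1 + i'))) ?_ (fun n => f (i + 1 + n)) ?_ ?_ i' hi' rfl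
      · rw [← hρ]
        exact h.rk _ _ (key i')
      · intro a b hab
        have := h1 hab
        omega
      · intro n
        exact h2 (i + 1 + n)
  rintro ⟨f, h1, h2⟩
  obtain ⟨i, hi⟩ := hmin f
  exact key _ f h1 h2 i hi rfl

section Out

variable {V Ω : Type} [DecidableEq V] [LinearOrder Ω]

/-- good vertices -/
def Gd (t : V → Ω) (m : V → ℕ) (a : V → Finset V × Ordinal.{0}) (x : V) : Prop :=
  (∀ w ∈ (a x).1, t w < t x ∧ m w = m x ∧ (a x).2 < (a w).2 ∧ (a w).1 ⊆ (a x).1) ∧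
    ∀ w ∈ (a x).1, ∀ w' ∈ (a x).1, w = w' ∨ w ∈ (a w').1 ∨ w' ∈ (a w).1

theorem gd_step (t : V → Ω) (m : V → ℕ) (a : V → Finset V × Ordinal.{0}) (x : V)
    (ha : ∀ y, t y < t x → Gd t m a y) (s : Option V) (K : Ordinal.{0})
    (hI : Inv t m a x 0 s K) (hx : a x = (ch a s, K)) : Gd t m a x := by
  have hK : ∀ w ∈ s, K < (a w).2 := by
    intro w hw
    obtain ⟨-, -, h3⟩ := hI w hw
    rw [Ordinal.opow_zero] at h3
    exact (lt_add_one K).trans_le h3
  unfold Gd
  rw [hx]
  show (∀ w ∈ ch a s, t w < t x ∧ m w = m x ∧ K < (a w).2 ∧ (a w).1 ⊆ ch a s) ∧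
    ∀ w ∈ ch a s, ∀ w' ∈ ch a s, w = w' ∨ w ∈ (a w').1 ∨ w' ∈ (a w).1
  cases s with
  | none =>
    exact ⟨fun w hw => absurd hw (Finset.notMem_empty w), fun w hw => absurd hw (Finset.notMem_empty w)⟩
  | some y =>
    obtain ⟨hy1, hy2, -⟩ := hI y rfl
    have hyK := hK y rfl
    obtain ⟨g1, g2⟩ := ha y hy1
    refine ⟨?_, ?_⟩
    · intro w hw
      rcases Finset.mem_insert.1 hw with rfl | hw
      · exact ⟨hy1, hy2, hyK, Finset.subset_insert _ _⟩
      · obtain ⟨e1, e2, e3, e4⟩ := g1 w hw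
        exact ⟨e1.trans hy1, e2.trans hy2, hyK.trans e3, e4.trans (Finset.subset_insert _ _)⟩
    · intro w hw w' hw'
      rcases Finset.mem_insert.1 hw with e | hw
      · rcases Finset.mem_insert.1 hw' with e' | hw'
        · exact Or.inl (e.trans e'.symm)
        · exact Or.inr (Or.inr (e ▸ hw'))
      · rcases Finset.mem_insert.1 hw' with e' | hw'
        · exact Or.inr (Or.inl (e' ▸ hw))
        · exact g2 w hw w' hw'

/-- the construction -/
theorem exists_a [WellFoundedLT Ω] (t : V → Ω) (m : V → ℕ) (l : V → List (Cand V Ω)) :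
    ∃ a : V → Finset V × Ordinal.{0}, (∀ x, Gd t m a x) ∧
      ∀ x, a x = (ch a (outer t m a x 0 (l x) (none, 0)).1, (outer t m a x 0 (l x) (none, 0)).2) := by
  obtain ⟨a, ha⟩ := rec_exists (X := Finset V × Ordinal.{0}) t
    (fun x a => (ch (fun y => if t y < t x then a y else (∅, 0)) (outer t m a x 0 (l x) (none, 0)).1,
      (outer t m a x 0 (l x) (none, 0)).2)) (by
    intro x a b h
    have h1 := outer_congr t m a b x h 0 (l x) (none, 0)
    have h2 : (fun y => if t y < t x then a y else ((∅, 0) : Finset V × Ordinal.{0})) =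
        (fun y => if t y < t x then b y else (∅, 0)) := by
      funext y
      by_cases hy : t y < t x
      · rw [if_pos hy, if_pos hy, h y hy]
      · rw [if_neg hy, if_neg hy]
    show (ch (fun y => if t y < t x then a y else (∅, 0)) (outer t m a x 0 (l x) (none, 0)).1,
      (outer t m a x 0 (l x) (none, 0)).2) = (ch (fun y => if t y < t x then b y else (∅, 0))
        (outer t m b x 0 (l x) (none, 0)).1, (outer t m b x 0 (l x) (none, 0)).2)
    rw [h1, h2])
  have hinv : ∀ x, Inv t m a x 0 (outer t m a x 0 (l x) (none, 0)).1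
      (outer t m a x 0 (l x) (none, 0)).2 := by
    intro x
    have h1 := outer_inv t m a x 0 (l x) (none, 0) (fun w hw => absurd hw (by simp))
    simpa using h1
  have hx : ∀ x, a x = (ch a (outer t m a x 0 (l x) (none, 0)).1,
      (outer t m a x 0 (l x) (none, 0)).2) := by
    intro x
    conv_lhs => rw [ha x]
    show (ch (fun y => if t y < t x then a y else (∅, 0)) (outer t m a x 0 (l x) (none, 0)).1,
      (outer t m a x 0 (l x) (none, 0)).2) = _
    have hi := hinv x
    cases hs : (outer t m a x 0 (l x) (none, 0)).1 with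
    | none => rfl
    | some y =>
      rw [hs] at hi
      have hy := (hi y rfl).1
      show (insert y (if t y < t x then a y else (∅, 0)).1, _) = (insert y (a y).1, _)
      rw [if_pos hy]
  refine ⟨a, ?_, hx⟩
  have key : ∀ s : Ω, ∀ x, t x = s → Gd t m a x := by
    intro s
    induction s using WellFoundedLT.induction with
    | ind s ih =>
      intro x hxs
      exact gd_step t m a x (fun y hy => ih (t y) (by rw [← hxs]; exact hy) y rfl) _ _ (hinv x)
        (hx x)
  exact fun x => key (t x) x rfl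

theorem forest_of_gd {t : V → Ω} {m : V → ℕ} {a : V → Finset V × Ordinal.{0}}
    (h : ∀ x, Gd t m a x) : Forest t m (fun x => (a x).1) (fun x => (a x).2) where
  lt := fun x y hy => ((h x).1 y hy).1
  lev := fun x y hy => ((h x).1 y hy).2.1
  rk := fun x y hy => ((h x).1 y hy).2.2.1
  trans := fun x y hy => ((h x).1 y hy).2.2.2
  chain := fun x y hy y' hy' => (h x).2 y hy y' hy'

/-- the strategy of `D` -/
def Strat (m : V → ℕ) (a : V → Finset V × Ordinal.{0}) (D : Set V) (f : Tab V) : Prop :=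
  ∀ σ : XS V, (∀ y ∈ f σ, y ∈ D ∧ m y = σ.m ∧ (∀ w ∈ σ.s, w ∈ (a y).1) ∧ thr σ ≤ (a y).2) ∧
    ((∃ y ∈ D, m y = σ.m ∧ (∀ w ∈ σ.s, w ∈ (a y).1) ∧ thr σ ≤ (a y).2) → ∃ y, f σ = some y)

theorem exists_strat (m : V → ℕ) (a : V → Finset V × Ordinal.{0}) (D : Set V) :
    ∃ f : Tab V, Strat m a D f := by
  classical
  have key : ∀ σ : XS V, ∃ o : Option V,
      (∀ y ∈ o, y ∈ D ∧ m y = σ.m ∧ (∀ w ∈ σ.s, w ∈ (a y).1) ∧ thr σ ≤ (a y).2) ∧
        ((∃ y ∈ D, m y = σ.m ∧ (∀ w ∈ σ.s, w ∈ (a y).1) ∧ thr σ ≤ (a y).2) → ∃ y, o = some y) := by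
    intro σ
    by_cases hex : ∃ y ∈ D, m y = σ.m ∧ (∀ w ∈ σ.s, w ∈ (a y).1) ∧ thr σ ≤ (a y).2
    · obtain ⟨y, hy⟩ := hex
      refine ⟨some y, ?_, fun _ => ⟨y, rfl⟩⟩
      intro z hz
      have : z = y := by
        have h2 : some y = some z := hz
        exact (Option.some.inj h2).symm
      rw [this]
      exact hy
    · exact ⟨none, fun y hy => absurd hy (by simp), fun hh => absurd hh hex⟩
  choose f hf using key
  exact ⟨f, hf⟩

/-- a right candidate kills `D` at `x` -/
theorem kill (t : V → Ω) (m : V → ℕ) (a : V → Finset V × Ordinal.{0}) (hG : ∀ x, Gd t m a x)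
    (x : V) (D : Set V) (hD : ∀ y ∈ D, y ∉ (a x).1) (hx : x ∈ D) (f : Tab V)
    (hf : Strat m a D f) (g : Ω) (hgx : g ≤ t x) (hg : ∀ σ ∈ CS t g, ∀ y ∈ f σ, t y < g)
    (l1 : List (Cand V Ω)) (c : Cand V Ω) (l2 : List (Cand V Ω)) (hl1 : ∀ d ∈ l1, d.1 ≤ g)
    (hc : c.1 = g) (k0 : ℕ) (hk0 : k0 ≤ m x) (hR : Right t c g f k0)
    (hax : a x = (ch a (outer t m a x 0 (l1 ++ c :: l2) (none, 0)).1,
      (outer t m a x 0 (l1 ++ c :: l2) (none, 0)).2)) : False := by
  have ha : ∀ y, t y < t x → ∀ w ∈ (a y).1, (a w).1 ⊆ (a y).1 := fun y _ w hw =>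
    ((hG y).1 w hw).2.2.2
  -- the state at the start of the candidate
  obtain ⟨p, hp⟩ : ∃ p, p = outer t m a x ((c :: l2).length + 0) l1 (none, 0) := ⟨_, rfl⟩
  have hps : ∀ w ∈ p.1, t w < g := by
    rw [hp]
    exact outer_bound t m a x _ g l1 hl1 _ (fun w hw => absurd hw (by simp))
  have hpK : p.2 < BB := by
    rw [hp]
    exact outer_K t m a x _ l1 _ BB_pos
  obtain ⟨L1, T, L2, hL, hT⟩ := hR ⟨m x, p.1, p.2, l2.length + 0⟩ hk0 hps hpK
  -- the final state
  obtain ⟨q, hq⟩ : ∃ q, q = outer t m a x 0 (l1 ++ c :: l2) (none, 0) := ⟨_, rfl⟩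
  have hq' : q = outer t m a x 0 l2 (blk t m a x c (l2.length + 0) p) := by
    rw [hq, outer_append, ← hp, outer]
  rw [← hq] at hax
  obtain ⟨σ0, hσ0⟩ : ∃ σ0, σ0 = st (⟨m x, p.1, p.2, l2.length + 0⟩ : X0 V)
    (c.2 ⟨m x, p.1, p.2, l2.length + 0⟩).length := ⟨_, rfl⟩
  rw [← hσ0] at hT
  obtain ⟨σ, hσ⟩ : ∃ σ, σ = inner t m a x g L1 σ0 := ⟨_, rfl⟩
  have hblk : blk t m a x c (l2.length + 0) p =
      ((inner t m a x g (T :: L2) σ).s, (inner t m a x g (T :: L2) σ).K) := by
    unfold blk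
    rw [hc, ← hσ0, hL, inner_append, ← hσ]
  obtain ⟨b, hb⟩ := inner_sim t m a x g L1 σ0
  have hTσ : T σ = f σ := by
    rw [hσ, hb]
    exact hT b
  have hσm : σ.m = m x := by
    rw [hσ, (inner_mk t m a x g L1 σ0).1, hσ0]
    rfl
  have hσCS : σ ∈ CS t g := by
    constructor
    · rw [hσ]
      refine inner_bound t m a x g g le_rfl L1 σ0 ?_
      rw [hσ0]
      exact hps
    · rw [hσ]
      refine inner_K t m a x g L1 σ0 ?_
      rw [hσ0]
      exact hpK
  by_cases hex : ∃ y, f σ = some y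
  · obtain ⟨y, hy⟩ := hex
    obtain ⟨hyD, hym, hys, hyr⟩ := (hf σ).1 y hy
    have hyg : t y < g := hg σ hσCS y hy
    have hA : Acc t m a x g σ y := ⟨hyg.trans_le hgx, hyg, hym.trans hσm, hys, hyr⟩
    have h1 : inner t m a x g (T :: L2) σ = inner t m a x g L2 ⟨⟨σ.m, some y, σ.K, σ.k⟩, σ.j - 1⟩ :=
      inner_acc (hTσ.trans hy) hA
    have h2 := (inner_grow t m a x g ha L2 ⟨⟨σ.m, some y, σ.K, σ.k⟩, σ.j - 1⟩).1
    rw [← h1] at h2
    have h3 := (outer_grow t m a x 0 ha l2 (blk t m a x c (l2.length + 0) p)).1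
    rw [← hq', hblk] at h3
    have h4 : y ∈ ch a q.1 := h3 (h2 (Finset.mem_insert_self _ _))
    refine hD y hyD ?_
    rw [hax]
    exact h4
  · have hrej : ¬ ∃ y ∈ T σ, Acc t m a x g σ y := by
      rintro ⟨y, hy, -⟩
      rw [hTσ] at hy
      exact hex ⟨y, hy⟩
    have h1 := inner_rej (l := L2) hrej
    obtain ⟨h2, h2'⟩ := inner_grow t m a x g ha L2 ⟨⟨σ.m, σ.s, thr σ, σ.k⟩, σ.j - 1⟩
    rw [← h1] at h2 h2'
    obtain ⟨h3, h3'⟩ := outer_grow t m a x 0 ha l2 (blk t m a x c (l2.length + 0) p)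
    rw [← hq', hblk] at h3 h3'
    refine hex ((hf σ).2 ⟨x, hx, hσm.symm, ?_, ?_⟩)
    · intro w hw
      rw [hax]
      refine h3 (h2 ?_)
      show w ∈ ch a σ.s
      have hw' : σ.s = some w := hw
      rw [hw']
      exact Finset.mem_insert_self _ _
    · rw [hax]
      exact h2'.trans h3'

end Out

end Pool.Agent.CT
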