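import Mathlib
import Pool.Agent.Lib_helper80.CS.F.C7
import Pool.Agent.Lib_helper80.CS.F.C8
import Pool.Agent.Lib_helper80.CT.Forest
import Pool.Agent.Lib_helper80.CT.Guess

/-! CT: the candidates and the graph. -/

set_option autoImplicit false

namespace Pool.Agent.CT

open Ordinal

theorem countable_BB : {K : Ordinal.{0} | K < BB}.Countable := by
  have h1 : BB.card = Cardinal.aleph0 := by
    unfold BB
    rw [Ordinal.card_omega0_opow, Ordinal.card_mul, Ordinal.card_omega0,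
      Cardinal.aleph0_mul_aleph0, max_self]
    exact (mul_pos omega0_pos omega0_pos).ne'
  have h2 : Cardinal.mk (Set.Iio BB) = Cardinal.lift.{1} Cardinal.aleph0.{0} := by
    rw [Cardinal.mk_Iio_ordinal, h1]
  rw [Cardinal.lift_aleph0] at h2
  exact Cardinal.le_aleph0_iff_set_countable.mp h2.le

theorem countable_opt {V : Type} {P : V → Prop} (h : {x | P x}.Countable) :
    {o : Option V | ∀ y ∈ o, P y}.Countable := by
  have h1 : {o : Option V | ∀ y ∈ o, P y} ⊆ {none} ∪ some '' {x | P x} := by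
    intro o ho
    cases o with
    | none => exact Or.inl rfl
    | some y => exact Or.inr ⟨y, ho y rfl, rfl⟩
  exact ((Set.countable_singleton _).union (h.image _)).mono h1

theorem countable_C0 {V Ω : Type} [LinearOrder Ω] (t : V → Ω) (g : Ω)
    (hc : {x | t x < g}.Countable) :
    {σ : X0 V | (∀ w ∈ σ.s, t w < g) ∧ σ.K < BB}.Countable := by
  have h1 := (Set.countable_univ (α := ℕ)).prod ((countable_opt hc).prod
    (countable_BB.prod (Set.countable_univ (α := ℕ))))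
  have hinj : Set.InjOn (fun σ : X0 V => (σ.m, σ.s, σ.K, σ.k))
      {σ : X0 V | (∀ w ∈ σ.s, t w < g) ∧ σ.K < BB} := by
    intro a _ b _ hab
    obtain ⟨e1, e2, e3, e4⟩ : a.m = b.m ∧ a.s = b.s ∧ a.K = b.K ∧ a.k = b.k := by
      simpa [Prod.ext_iff] using hab
    exact X0.ext e1 e2 e3 e4
  refine Set.MapsTo.countable_of_injOn (f := fun σ : X0 V => (σ.m, σ.s, σ.K, σ.k)) ?_ hinj h1
  intro σ hσ
  exact ⟨trivial, hσ.1, hσ.2, trivial⟩

theorem countable_CS {V Ω : Type} [LinearOrder Ω] (t : V → Ω) (g : Ω)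
    (hc : {x | t x < g}.Countable) : (CS t g).Countable := by
  have h1 := (countable_C0 t g hc).prod (Set.countable_univ (α := ℕ))
  have hinj : Set.InjOn (fun σ : XS V => (σ.toX0, σ.j)) (CS t g) := by
    intro a _ b _ hab
    obtain ⟨e1, e2⟩ : a.toX0 = b.toX0 ∧ a.j = b.j := by
      simpa [Prod.ext_iff] using hab
    cases a
    cases b
    simp only at e1 e2
    rw [e1, e2]
  refine Set.MapsTo.countable_of_injOn (f := fun σ : XS V => (σ.toX0, σ.j)) ?_ hinj h1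
  intro σ hσ
  exact ⟨hσ, trivial⟩

/-- closure points of a strategy -/
theorem closure {V Ω : Type} [LinearOrder Ω] [WellFoundedLT Ω]
    (hb : ∀ S : Set Ω, S.Countable → ∃ b, ∀ x ∈ S, x < b) (t : V → Ω)
    (hc : ∀ z : Ω, {x | t x < z}.Countable) (f : Tab V) (g0 : Ω) :
    ∃ g, g0 ≤ g ∧ ∀ σ ∈ CS t g, ∀ y ∈ f σ, t y < g := by
  have h1 : {p : ℕ × Ordinal.{0} × ℕ × ℕ | p.2.1 < BB}.Countable := by
    have h2 := (Set.countable_univ (α := ℕ)).prod (countable_BB.prod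
      (Set.countable_univ (α := ℕ × ℕ)))
    refine h2.mono ?_
    intro p hp
    exact ⟨trivial, hp, trivial⟩
  obtain ⟨e, he⟩ := h1.exists_eq_range ⟨(0, 0, 0, 0), BB_pos⟩
  obtain ⟨g, hg0, hg⟩ := Pool.Agent.CS.closure hb t hc
    (fun n N => f ⟨⟨(e n).1, N.toList.head?, (e n).2.1, (e n).2.2.1⟩, (e n).2.2.2⟩) g0
  refine ⟨g, hg0, ?_⟩
  intro σ hσ y hy
  have h3 : (σ.m, σ.K, σ.k, σ.j) ∈ {p : ℕ × Ordinal.{0} × ℕ × ℕ | p.2.1 < BB} := hσ.2
  rw [he] at h3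
  obtain ⟨n, hn⟩ := h3
  refine hg n σ.s.toFinset ?_ y ?_
  · intro w hw
    exact hσ.1 w (Option.mem_toFinset.1 hw)
  · have h4 : σ.s.toFinset.toList.head? = σ.s := by
      cases σ.s with
      | none => simp
      | some w => simp
    show f ⟨⟨(e n).1, σ.s.toFinset.toList.head?, (e n).2.1, (e n).2.2.1⟩, (e n).2.2.2⟩ = some y
    rw [h4, hn]
    exact hy

/-- the candidates -/
theorem guess_exists {V Ω : Type} [LinearOrder Ω] (hΩ : Cardinal.mk Ω = Cardinal.aleph 1)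
    (h : PSl Ω) (t : V → Ω) (hc : ∀ z : Ω, {x | t x < z}.Countable) :
    ∃ c : Ω → Cand V Ω, ∀ (g : Ω) (f : Tab V), (∀ σ ∈ CS t g, ∀ y ∈ f σ, t y < g) →
      ∃ ξ, (c ξ).1 = g ∧ ∃ k0, Right t (c ξ) g f k0 := by
  classical
  have key : ∀ g : Ω, ∃ L : Ω × (Ω × ℕ) → X0 V → List (Tab V), ∀ f : Tab V,
      (∀ q ∈ CS t g, f q ∈ {o : Option V | ∀ y ∈ o, t y < g}) →
      ∃ ξ, ∃ E : Set (X0 V), E.Finite ∧
        ∀ σ ∈ {σ : X0 V | (∀ w ∈ σ.s, t w < g) ∧ σ.K < BB}, σ ∉ E →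
          ∃ l1 T l2, L ξ σ = l1 ++ T :: l2 ∧
        ∀ b, T (sim nx l1 b (st σ (L ξ σ).length)) = f (sim nx l1 b (st σ (L ξ σ).length)) := by
    intro g
    refine guess_abs h _ (countable_C0 t g (hc g)) (CS t g) (countable_CS t g (hc g)) _
      (countable_opt (hc g)) none (by simp) st ?_ nx ?_
    · intro σ hσ n
      exact hσ
    · intro q hq o ho b
      cases b with
      | true =>
        rw [nx_true]
        exact ⟨ho, hq.2⟩
      | false =>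
        rw [nx_false]
        exact ⟨hq.1, thr_lt q hq.2⟩
  choose L hL using key
  have hcard : Cardinal.mk (Ω × (Ω × (Ω × ℕ))) = Cardinal.mk Ω := by
    have h0 : Cardinal.aleph0 ≤ Cardinal.aleph 1 := Cardinal.aleph0_le_aleph 1
    simp only [Cardinal.mk_prod, Cardinal.lift_id, hΩ, Cardinal.mk_nat]
    rw [Cardinal.mul_eq_left h0 h0 Cardinal.aleph0_ne_zero, Cardinal.mul_eq_self h0,
      Cardinal.mul_eq_self h0]
  obtain ⟨e⟩ := Cardinal.eq.1 hcard.symm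
  refine ⟨fun ξ => ((e ξ).1, L (e ξ).1 (e ξ).2), ?_⟩
  intro g f hf
  obtain ⟨ζ, E, hE, hζ⟩ := hL g f hf
  refine ⟨e.symm (g, ζ), by simp, ?_⟩
  obtain ⟨k, hk⟩ := (hE.image (fun σ => σ.m)).bddAbove
  refine ⟨k + 1, ?_⟩
  intro σ hσ1 hσ2 hσ3
  have h1 : σ ∉ E := by
    intro hmem
    have := hk ⟨σ, hmem, rfl⟩
    simp only at this
    omega
  have h2 := hζ σ ⟨hσ2, hσ3⟩ h1
  simpa using h2

/-- the lists -/
theorem exists_lists {V Ω : Type} [LinearOrder Ω] (s : Sys V Ω) (h : s.Ok) :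
    ∃ l : V → List (Cand V Ω),
      ∀ x z ξ, z ∈ s.L x → ξ < z → s.e z ξ < s.m x → (s.c ξ).1 ≤ z →
        (∀ z' ∈ s.L x, z' < z → z' ≤ (s.c ξ).1) →
        ∃ l1 l2, l x = l1 ++ s.c ξ :: l2 ∧ ∀ d ∈ l1, d.1 ≤ (s.c ξ).1 := by
  classical
  have hT : ∀ z : Ω, ∀ k : ℕ, ∃ T : Finset Ω,
      (∀ ξ, ξ ∈ T ↔ ξ < z ∧ s.e z ξ < k ∧ (s.c ξ).1 ≤ z) ∧ T.card ≤ k :=
    fun z k => Pool.Agent.CS.c7_finite (s.e z) z (h.ei z) k (fun ξ => (s.c ξ).1 ≤ z)
  choose T hT1 hT2 using hT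
  have hS : ∀ z : Ω, ∀ k : ℕ, ∃ l : List Ω, (∀ ξ, ξ ∈ l ↔ ξ ∈ T z k) ∧
      l.length = (T z k).card ∧ l.Pairwise (fun a b => (s.c a).1 ≤ (s.c b).1) :=
    fun z k => by
      obtain ⟨l, h1, h2, h3, -⟩ := Pool.Agent.CS.c7_sorted (fun ξ => (s.c ξ).1) (T z k)
      exact ⟨l, h1, h2, h3⟩
  choose S hS1 hS2 hS3 using hS
  have hL : ∀ x : V, ∃ l : List Ω, (∀ z, z ∈ l ↔ z ∈ s.L x) ∧ l.length = (s.L x).card ∧
      l.Pairwise (fun a b => a < b) := by
    intro x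
    obtain ⟨l, h1, h2, h3, hnd⟩ := Pool.Agent.CS.c7_sorted (fun z : Ω => z) (s.L x)
    refine ⟨l, h1, h2, ?_⟩
    have h6 : l.Pairwise (fun a b => a ≤ b ∧ a ≠ b) := h3.and hnd
    exact h6.imp (fun {a b} hab => lt_of_le_of_ne hab.1 hab.2)
  choose L hL1 hL2 hL3 using hL
  refine ⟨fun x => (L x).flatMap (fun z => (S z (s.m x)).map s.c), ?_⟩
  intro x z ξ hz hξz hek hcz hprev
  have hzL : z ∈ L x := (hL1 x z).2 hz
  obtain ⟨p, q, hpq⟩ := List.append_of_mem hzL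
  have hξS : ξ ∈ S z (s.m x) := (hS1 z (s.m x) ξ).2 ((hT1 z (s.m x) ξ).2 ⟨hξz, hek, hcz⟩)
  obtain ⟨p', q', hpq'⟩ := List.append_of_mem hξS
  refine ⟨p.flatMap (fun z => (S z (s.m x)).map s.c) ++ p'.map s.c,
    q'.map s.c ++ q.flatMap (fun z => (S z (s.m x)).map s.c), ?_, ?_⟩
  · show (L x).flatMap (fun z => (S z (s.m x)).map s.c) = _
    rw [hpq, List.flatMap_append, List.flatMap_cons, hpq', List.map_append, List.map_cons]
    simp only [List.append_assoc, List.cons_append]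
  · intro d hd
    rcases List.mem_append.1 hd with hd | hd
    · obtain ⟨z', hz', hd'⟩ := List.mem_flatMap.1 hd
      obtain ⟨η, hη, rfl⟩ := List.mem_map.1 hd'
      have hη' := (hT1 z' (s.m x) η).1 ((hS1 z' (s.m x) η).1 hη)
      have hz'L : z' ∈ L x := by
        rw [hpq]
        exact List.mem_append_left _ hz'
      have hlt : z' < z := by
        have hpw := hL3 x
        rw [hpq] at hpw
        exact (List.pairwise_append.1 hpw).2.2 z' hz' z List.mem_cons_self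
      exact hη'.2.2.trans (hprev z' ((hL1 x z').1 hz'L) hlt)
    · obtain ⟨η, hη, rfl⟩ := List.mem_map.1 hd
      have hpw := hS3 z (s.m x)
      rw [hpq'] at hpw
      exact (List.pairwise_append.1 hpw).2.2 η hη ξ List.mem_cons_self

/-- the graph -/
theorem graph_exists {V Ω : Type} [LinearOrder Ω] [WellFoundedLT Ω]
    (hb : ∀ S : Set Ω, S.Countable → ∃ b, ∀ x ∈ S, x < b) (s : Sys V Ω) (h : s.Ok) :
    ∃ out : V → Finset V,
      (¬ ∃ f : ℕ → V, Function.Injective f ∧ ∀ n, f (n + 1) ∈ out (f n) ∨ f n ∈ out (f (n + 1))) ∧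
      (∀ x, x ∉ out x) ∧
      ∀ D : Set V, (∀ x ∈ D, ∀ y ∈ D, y ∉ out x) → ∀ g0, ∃ g, g0 ≤ g ∧ ∃ γ, ∀ z, γ ≤ z →
        ∃ k0, ∀ x ∈ D, k0 ≤ s.m x → z ∈ s.L x → ∃ z' ∈ s.L x, g < z' ∧ z' < z := by
  classical
  obtain ⟨l, hl⟩ := exists_lists s h
  obtain ⟨a, hG, ha⟩ := exists_a s.t s.m l
  have hF := forest_of_gd hG
  refine ⟨fun x => (a x).1, no_path hF, ?_, ?_⟩
  · intro x hx
    exact lt_irrefl _ (hF.lt x x hx)
  · intro D hD g0
    obtain ⟨f, hf⟩ := exists_strat s.m a D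
    obtain ⟨g, hg0, hg⟩ := closure hb s.t h.cnt f g0
    obtain ⟨ξ, hξ1, k1, hξ2⟩ := h.guess g f hg
    obtain ⟨γ, hγ⟩ := hb {ξ, g} (Set.Countable.insert _ (Set.countable_singleton _))
    have hγξ : ξ < γ := hγ ξ (by simp)
    have hγg : g < γ := hγ g (by simp)
    refine ⟨g, hg0, γ, ?_⟩
    intro z hz
    refine ⟨max k1 (s.e z ξ + 1), ?_⟩
    intro x hx hk hzL
    by_contra hcon
    have hcon' : ∀ z' ∈ s.L x, z' < z → z' ≤ g := by
      intro z' hz' hlt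
      by_contra hgt
      exact hcon ⟨z', hz', not_le.mp hgt, hlt⟩
    have hgz : g < z := hγg.trans_le hz
    obtain ⟨l1, l2, hlx, hl1⟩ := hl x z ξ hzL (hγξ.trans_le hz)
      (Nat.lt_of_succ_le ((le_max_right _ _).trans hk))
      (by rw [hξ1]; exact hgz.le) (by rw [hξ1]; exact hcon')
    rw [hξ1] at hl1
    have hax := ha x
    rw [hlx] at hax
    exact kill s.t s.m a hG x D (hD x hx) hx f hf g (hgz.le.trans (h.Lt x z hzL)) hg l1 (s.c ξ) l2
      hl1 hξ1 k1 ((le_max_left _ _).trans hk) hξ2 hax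

end Pool.Agent.CT
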