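import Mathlib
import Pool.Agent.Lib_helper80.CS.F.C15
import Pool.Agent.Lib_helper80.CT.Cand

/-! CT: the theorem. -/

set_option autoImplicit false

namespace Pool.Agent.CT

open Finset

theorem psl_graph (hS : PSl (Ordinal.omega 1 : Ordinal.{0}).ToType) (V : Type) [LinearOrder V]
    [WellFoundedLT V] (hV : Cardinal.mk V ≤ Cardinal.aleph 1) :
    ∃ G : SimpleGraph V, (¬ ∃ f : ℕ → V, Function.Injective f ∧ ∀ n, G.Adj (f n) (f (n + 1))) ∧
      ∀ S : Set V, (∀ x ∈ S, ∀ y ∈ S, ¬ G.Adj x y) →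
        Ordinal.type (fun x y : S => x < y) < Ordinal.omega 1 ^ (Ordinal.omega0 + 2) := by
  classical
  let Ω := (Ordinal.omega 1 : Ordinal.{0}).ToType
  have hΩ : Cardinal.mk Ω = Cardinal.aleph 1 := Pool.Agent.CS.c15_mk
  have hcnt : ∀ z : Ω, (Set.Iio z).Countable := Pool.Agent.CS.c15_cnt
  -- the embedding
  have hemb : Nonempty (V ↪ Ω) := by
    have : Cardinal.mk V ≤ Cardinal.mk Ω := by rw [hΩ]; exact hV
    exact this
  obtain ⟨τe⟩ := hemb
  let τ : V → Ω := fun x => τe x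
  have hτ : Function.Injective τ := τe.injective
  have hc : ∀ z : Ω, {x | τ x < z}.Countable := fun z =>
    (hcnt z).preimage_of_injOn (hτ.injOn)
  -- the ranks
  let ρ : Ω → Ordinal.{0} := fun z => Ordinal.typein (fun x y : Ω => x < y) z
  have hρ : StrictMono ρ := fun x y hxy =>
    (Ordinal.typein_lt_typein (fun x y : Ω => x < y)).mpr hxy
  have hρ1 : ∀ z, ρ z < Ordinal.omega 1 := fun z => Ordinal.typein_lt_self z
  obtain ⟨m0, hm0⟩ := Pool.Agent.CS.milner_rado ρ hρ hρ1 τ hτ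
  -- the system
  obtain ⟨c, hcg⟩ := guess_exists hΩ hS τ hc
  have he : ∀ z : Ω, ∃ f : Ω → ℕ, Set.InjOn f (Set.Iio z) := fun z =>
    Set.countable_iff_exists_injOn.mp (hcnt z)
  choose e he using he
  let L : V → Finset Ω := fun x => ((Pool.Agent.CS.rec_finite τ hτ x).image τ).toFinset
  have hL : ∀ x z, z ∈ L x ↔ ∃ v ∈ Pool.Agent.CS.Rec τ x, τ v = z := by
    intro x z
    show z ∈ ((Pool.Agent.CS.rec_finite τ hτ x).image τ).toFinset ↔ _
    rw [Set.Finite.mem_toFinset]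
    rfl
  let m : V → ℕ := fun x => max (m0 x) (L x).card
  let s : Sys V Ω := ⟨τ, m, L, c, e⟩
  have hs : s.Ok := by
    refine ⟨?_, ?_, he, hc, hcg⟩
    · intro x z hz
      obtain ⟨v, hv, rfl⟩ := (hL x z).mp hz
      exact Pool.Agent.CS.rec_le τ hv
    · intro x
      exact le_max_right _ _
  obtain ⟨out, h1, h2, h3⟩ := graph_exists Pool.Agent.CS.c15_bd s hs
  have hm : ∀ k, Pool.Agent.CS.TL {x | m x < k} (Ordinal.omega 1 ^ k) := by
    intro k
    have hsub : {x | m x < k} ⊆ {x | m0 x < k} := by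
      intro x hx
      exact lt_of_le_of_lt (le_max_left (m0 x) (L x).card) hx
    exact Pool.Agent.CS.TL.mono hsub le_rfl (hm0 k)
  refine ⟨{ Adj := fun x y => x ≠ y ∧ (y ∈ out x ∨ x ∈ out y)
            symm := ⟨fun x y h => ⟨h.1.symm, h.2.symm⟩⟩
            loopless := ⟨fun x h => h.1 rfl⟩ }, ?_, ?_⟩
  · rintro ⟨f, hf, hadj⟩
    exact h1 ⟨f, hf, fun n => (hadj n).2⟩
  · intro S hS
    by_contra hne
    push Not at hne
    obtain ⟨D, hDS, hD⟩ := Pool.Agent.CS.c15_sub S hne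
    have hDi : ∀ x ∈ D, ∀ y ∈ D, y ∉ out x := by
      intro x hx y hy hyx
      refine hS x (hDS hx) y (hDS hy) ⟨?_, Or.inl hyx⟩
      intro hxy
      subst hxy
      exact h2 x hyx
    obtain ⟨v, hv⟩ := Pool.Agent.CS.big_piece hcnt ρ hρ hρ1 τ hτ m hm D hD
    have hg0 : ∃ g0 : Ω, ∀ u : V, v = (u : WithTop V) → τ u ≤ g0 := by
      rcases v with _ | u
      · have hne : Nonempty Ω := by
          rw [← Cardinal.mk_ne_zero_iff, hΩ]
          exact (Cardinal.aleph_pos 1).ne'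
        obtain ⟨g0⟩ := hne
        exact ⟨g0, fun u hu => absurd hu WithTop.top_ne_coe⟩
      · exact ⟨τ u, fun u' hu' => by rw [WithTop.coe_injective hu']⟩
    obtain ⟨g0, hg0⟩ := hg0
    obtain ⟨g, hg, γ, hγ⟩ := h3 D hDi g0
    obtain ⟨z, hz, hz'⟩ := hv γ
    obtain ⟨k0, hk0⟩ := hγ z hz
    obtain ⟨x, hxD, w, hw, hwz, hk⟩ := hz' k0
    obtain ⟨z', hz'L, hgz, hzz⟩ := hk0 x hxD hk
      ((hL x z).mpr ⟨w, Pool.Agent.CS.arg_rec τ hw, hwz⟩)
    obtain ⟨v', hv', hv'z⟩ := (hL x z').mp hz'L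
    obtain ⟨u, hu, hu'⟩ := Pool.Agent.CS.arg_prev τ hw hv' (by rw [hv'z, hwz]; exact hzz)
    have h5 : z' ≤ g := by
      rw [← hv'z]
      exact (hu'.trans (hg0 u hu)).trans hg
    exact absurd hgz (not_lt.mpr h5)

end Pool.Agent.CT
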